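import Mathlib

/-!
The countable powers of the Arens space `S₂` and of the sequential fan `S_ω` are not
`k_ℝ`-spaces.
-/

set_option autoImplicit false

open Set Filter Topology

namespace Pool.Agent.Results.MP_d55beb_gt.PowersNotKR

universe u

/-- The defining property of `k_ℝ`-spaces: every real function whose restriction to each compact
subset is continuous is continuous. -/
def KR (X : Type u) [TopologicalSpace X] : Prop :=
  ∀ f : X → ℝ, (∀ K : Set X, IsCompact K → ContinuousOn f K) → Continuous f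

/-! ### The sequential fan -/

/-- The points of the sequential fan: `none` is `∞`, and `some (n, m)` is the point `(n, m)`. -/
def Fan : Type := Option (ℕ × ℕ)

/-- The point `∞` of the fan. -/
def Fan.inf : Fan := none

/-- The point `(n, m)` of the fan. -/
def Fan.pt (n m : ℕ) : Fan := some (n, m)

/-- The basic neighbourhood `{∞} ∪ {(n, m) : m ≥ f n}` of `∞`. -/
def Fan.nb (f : ℕ → ℕ) : Set Fan := {x | x = Fan.inf ∨ ∃ n m, f n ≤ m ∧ x = Fan.pt n m}

/-- The topology of the sequential fan: the points `(n, m)` are isolated, and the sets `nb f` are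
the basic neighbourhoods of `∞`. -/
instance : TopologicalSpace Fan where
  IsOpen U := Fan.inf ∈ U → ∃ f : ℕ → ℕ, Fan.nb f ⊆ U
  isOpen_univ := fun _ => ⟨fun _ => 0, subset_univ _⟩
  isOpen_inter := by
    rintro U V hU hV ⟨h1, h2⟩
    obtain ⟨f, hf⟩ := hU h1
    obtain ⟨g, hg⟩ := hV h2
    refine ⟨fun n => max (f n) (g n), ?_⟩
    rintro x (rfl | ⟨n, m, hm, rfl⟩)
    · exact ⟨h1, h2⟩
    · exact ⟨hf (Or.inr ⟨n, m, le_of_max_le_left hm, rfl⟩),
        hg (Or.inr ⟨n, m, le_of_max_le_right hm, rfl⟩)⟩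
  isOpen_sUnion := by
    rintro S hS ⟨U, hU, h⟩
    obtain ⟨f, hf⟩ := hS U hU h
    exact ⟨f, hf.trans (subset_sUnion_of_mem hU)⟩

/-! ### The Arens space -/

/-- The points of the Arens space: `none` is `∞`, `some (Sum.inl n)` is `a_n` and
`some (Sum.inr (n, m))` is `a_{n,m}`. -/
def Arens : Type := Option (ℕ ⊕ ℕ × ℕ)

/-- The point `∞` of the Arens space. -/
def Arens.inf : Arens := none

/-- The point `a_n` of the Arens space. -/
def Arens.a (n : ℕ) : Arens := some (Sum.inl n)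

/-- The point `a_{n,m}` of the Arens space. -/
def Arens.pt (n m : ℕ) : Arens := some (Sum.inr (n, m))

/-- The basic neighbourhood `{a_n} ∪ {a_{n,m} : m ≥ k}` of `a_n`. -/
def Arens.nb (n k : ℕ) : Set Arens := {x | x = Arens.a n ∨ ∃ m ≥ k, x = Arens.pt n m}

/-- The topology of the Arens space: the points `a_{n,m}` are isolated, the sets `nb n k` are the
basic neighbourhoods of `a_n`, and the sets `{∞} ∪ ⋃_{n ≥ k} V_n`, with `V_n` a basic
neighbourhood of `a_n`, are the basic neighbourhoods of `∞`. -/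
instance : TopologicalSpace Arens where
  IsOpen U := (∀ n, Arens.a n ∈ U → ∃ k, Arens.nb n k ⊆ U) ∧
    (Arens.inf ∈ U → ∃ (k : ℕ) (g : ℕ → ℕ), ∀ n ≥ k, Arens.nb n (g n) ⊆ U)
  isOpen_univ := ⟨fun _ _ => ⟨0, subset_univ _⟩, fun _ => ⟨0, fun _ => 0, fun _ _ => subset_univ _⟩⟩
  isOpen_inter := by
    have key : ∀ n k l, Arens.nb n (max k l) ⊆ Arens.nb n k ∩ Arens.nb n l := by
      rintro n k l x (rfl | ⟨m, hm, rfl⟩)
      · exact ⟨Or.inl rfl, Or.inl rfl⟩
      · exact ⟨Or.inr ⟨m, le_of_max_le_left hm, rfl⟩, Or.inr ⟨m, le_of_max_le_right hm, rfl⟩⟩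
    rintro U V ⟨hU, hU'⟩ ⟨hV, hV'⟩
    refine ⟨?_, ?_⟩
    · rintro n ⟨h1, h2⟩
      obtain ⟨k, hk⟩ := hU n h1
      obtain ⟨l, hl⟩ := hV n h2
      exact ⟨max k l, (key n k l).trans (inter_subset_inter hk hl)⟩
    · rintro ⟨h1, h2⟩
      obtain ⟨k, g, hk⟩ := hU' h1
      obtain ⟨l, h, hl⟩ := hV' h2
      exact ⟨max k l, fun n => max (g n) (h n), fun n hn =>
        (key n (g n) (h n)).trans (inter_subset_inter (hk n (le_of_max_le_left hn))
          (hl n (le_of_max_le_right hn)))⟩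
  isOpen_sUnion := by
    intro S hS
    refine ⟨?_, ?_⟩
    · rintro n ⟨U, hU, h⟩
      obtain ⟨k, hk⟩ := (hS U hU).1 n h
      exact ⟨k, hk.trans (subset_sUnion_of_mem hU)⟩
    · rintro ⟨U, hU, h⟩
      obtain ⟨k, g, hk⟩ := (hS U hU).2 h
      exact ⟨k, g, fun n hn => (hk n hn).trans (subset_sUnion_of_mem hU)⟩

/-! ### The general argument -/

section general

variable {S : Type} [TopologicalSpace S]

/-- A compact set contains only finitely many points of a closed set of isolated points. -/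
lemma finite_inter {K D : Set S} (hK : IsCompact K) (hD : IsClosed D)
    (hiso : ∀ d ∈ D, IsOpen ({d} : Set S)) : (K ∩ D).Finite := by
  obtain ⟨t, ht⟩ := (hK.inter_right hD).elim_finite_subcover (fun d : D => ({d.1} : Set S))
    (fun d => hiso d.1 d.2) (fun d hd => mem_iUnion.2 ⟨⟨d, hd.2⟩, rfl⟩)
  refine (t.finite_toSet.image Subtype.val).subset ?_
  intro d hd
  obtain ⟨c, hc, hdc⟩ := mem_iUnion₂.1 (ht hd)
  exact ⟨c, hc, (mem_singleton_iff.1 hdc).symm⟩

/-- The set of the `z` with `z 0 = b n k`, `z 1 = … = z n = b 0 0` and `z (n + 1) = b k 0`. -/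
def Q (b : ℕ → ℕ → S) (n k : ℕ) : Set (ℕ → S) :=
  {z | z 0 = b n k ∧ (∀ i < n, z (i + 1) = b 0 0) ∧ z (n + 1) = b k 0}

lemma isOpen_Q {b : ℕ → ℕ → S} (hb : ∀ n k, IsOpen ({b n k} : Set S)) (n k : ℕ) :
    IsOpen (Q b n k) := by
  have h1 : Q b n k = (fun z : ℕ → S => z 0) ⁻¹' {b n k} ∩
      ((⋂ i ∈ Iio n, (fun z : ℕ → S => z (i + 1)) ⁻¹' {b 0 0}) ∩
        (fun z : ℕ → S => z (n + 1)) ⁻¹' {b k 0}) := by
    ext z
    simp [Q]
  rw [h1]
  refine ((hb n k).preimage (continuous_apply 0)).inter (IsOpen.inter ?_ ?_)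
  · exact (finite_Iio n).isOpen_biInter fun i _ => (hb 0 0).preimage (continuous_apply (i + 1))
  · exact (hb k 0).preimage (continuous_apply (n + 1))

lemma isClosed_Q {b : ℕ → ℕ → S} (hb : ∀ n k, IsClosed ({b n k} : Set S)) (n k : ℕ) :
    IsClosed (Q b n k) := by
  have h1 : Q b n k = (fun z : ℕ → S => z 0) ⁻¹' {b n k} ∩
      ((⋂ i ∈ Iio n, (fun z : ℕ → S => z (i + 1)) ⁻¹' {b 0 0}) ∩
        (fun z : ℕ → S => z (n + 1)) ⁻¹' {b k 0}) := by
    ext z
    simp [Q]
  rw [h1]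
  refine ((hb n k).preimage (continuous_apply 0)).inter (IsClosed.inter ?_ ?_)
  · exact isClosed_biInter fun i _ => (hb 0 0).preimage (continuous_apply (i + 1))
  · exact (hb k 0).preimage (continuous_apply (n + 1))

lemma not_KR (p : S) (b : ℕ → ℕ → S) (hb : ∀ n k, IsOpen ({b n k} : Set S))
    (hinj : ∀ n k n' k', b n k = b n' k' → n = n' ∧ k = k') (hp : ∀ n k, b n k ≠ p)
    (hcl : ∀ (I : Set ℕ) (g : ℕ → ℕ), IsClosed {x | ∃ n ∈ I, x = b n (g n)})
    (hnb : ∀ U : Set S, IsOpen U → p ∈ U → ∃ n₀, ∀ n ≥ n₀, ∃ k, b n k ∈ U) :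
    ¬ KR (ℕ → S) := by
  classical
  intro h
  have hbc : ∀ n k, IsClosed ({b n k} : Set S) := by
    intro n k
    have h1 := hcl {n} fun _ => k
    have h2 : {x | ∃ n' ∈ ({n} : Set ℕ), x = b n' k} = {b n k} := by
      ext x
      simp
    rwa [h2] at h1
  set f : (ℕ → S) → ℝ := fun z => if z ∈ ⋃ q : ℕ × ℕ, Q b q.1 q.2 then 1 else 0 with hf
  -- `f` is continuous on the compact sets
  have hfK : ∀ K : Set (ℕ → S), IsCompact K → ContinuousOn f K := by
    intro K hK
    -- only finitely many columns are met by the projection to the coordinate `0`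
    have h1 : {n | ∃ k, b n k ∈ (fun z : ℕ → S => z 0) '' K}.Finite := by
      have h2 : ∀ n, ∃ k, (∃ k', b n k' ∈ (fun z : ℕ → S => z 0) '' K) →
          b n k ∈ (fun z : ℕ → S => z 0) '' K := by
        intro n
        by_cases hn : ∃ k', b n k' ∈ (fun z : ℕ → S => z 0) '' K
        · obtain ⟨k, hk⟩ := hn
          exact ⟨k, fun _ => hk⟩
        · exact ⟨0, fun h => absurd h hn⟩
      choose g hg using h2
      have h3 := finite_inter (hK.image (continuous_apply 0)) (hcl univ g) (by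
        rintro _ ⟨n, _, rfl⟩
        exact hb _ _)
      refine (h3.preimage (f := fun n => b n (g n)) fun m _ n _ hmn => (hinj _ _ _ _ hmn).1).subset
        ?_
      intro n hn
      exact ⟨hg n hn, n, mem_univ n, rfl⟩
    have h2 : ∀ n, {k | b k 0 ∈ (fun z : ℕ → S => z (n + 1)) '' K}.Finite := by
      intro n
      have h3 := finite_inter (hK.image (continuous_apply (n + 1))) (hcl univ fun _ => 0) (by
        rintro _ ⟨n, _, rfl⟩
        exact hb _ _)
      refine (h3.preimage (f := fun n => b n 0) fun m _ n _ hmn => (hinj _ _ _ _ hmn).1).subset ?_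
      intro k hk
      exact ⟨hk, k, mem_univ k, rfl⟩
    have hT : {q : ℕ × ℕ | (K ∩ Q b q.1 q.2).Nonempty}.Finite := by
      refine (h1.biUnion fun n _ => ((h2 n).image fun k => (n, k))).subset ?_
      rintro ⟨n, k⟩ ⟨z, hzK, hz1, hz2, hz3⟩
      refine mem_iUnion₂.2 ⟨n, ⟨k, z, hzK, hz1⟩, k, ⟨z, hzK, hz3⟩, rfl⟩
    -- on `K`, `f` is the indicator function of a clopen set
    have hclopen : IsClopen (⋃ q ∈ {q : ℕ × ℕ | (K ∩ Q b q.1 q.2).Nonempty}, Q b q.1 q.2) :=
      ⟨hT.isClosed_biUnion fun q _ => isClosed_Q hbc _ _,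
        isOpen_biUnion fun q _ => isOpen_Q hb _ _⟩
    have hg : Continuous fun z : ℕ → S =>
        if z ∈ ⋃ q ∈ {q : ℕ × ℕ | (K ∩ Q b q.1 q.2).Nonempty}, Q b q.1 q.2 then (1 : ℝ) else 0 := by
      refine Continuous.if ?_ continuous_const continuous_const
      intro z hz
      have h4 : {z | z ∈ ⋃ q ∈ {q : ℕ × ℕ | (K ∩ Q b q.1 q.2).Nonempty}, Q b q.1 q.2} =
        ⋃ q ∈ {q : ℕ × ℕ | (K ∩ Q b q.1 q.2).Nonempty}, Q b q.1 q.2 := rfl
      rw [h4, hclopen.frontier_eq] at hz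
      exact absurd hz (notMem_empty z)
    refine hg.continuousOn.congr ?_
    intro z hz
    have h5 : z ∈ ⋃ q : ℕ × ℕ, Q b q.1 q.2 ↔
        z ∈ ⋃ q ∈ {q : ℕ × ℕ | (K ∩ Q b q.1 q.2).Nonempty}, Q b q.1 q.2 := by
      constructor
      · intro h6
        obtain ⟨q, hq⟩ := mem_iUnion.1 h6
        exact mem_iUnion₂.2 ⟨q, ⟨z, hz, hq⟩, hq⟩
      · intro h6
        obtain ⟨q, _, hq⟩ := mem_iUnion₂.1 h6
        exact mem_iUnion.2 ⟨q, hq⟩
    show (if z ∈ ⋃ q : ℕ × ℕ, Q b q.1 q.2 then (1 : ℝ) else 0) = _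
    by_cases h6 : z ∈ ⋃ q : ℕ × ℕ, Q b q.1 q.2
    · rw [if_pos h6]
      exact (if_pos (h5.1 h6)).symm
    · rw [if_neg h6]
      exact (if_neg fun h7 => h6 (h5.2 h7)).symm
  have hcont := h f hfK
  -- `f` is not continuous at the following point
  set z₀ : ℕ → S := fun i => if i = 0 then p else b 0 0 with hz₀
  have hfz₀ : f z₀ = 0 := by
    rw [hf]
    refine if_neg ?_
    rintro h1
    obtain ⟨q, hq, _⟩ := mem_iUnion.1 h1
    exact hp q.1 q.2 (by rw [← hq]; simp [hz₀])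
  have hO : IsOpen {z | f z < 1 / 2} := isOpen_lt hcont continuous_const
  obtain ⟨I, u, hu, huO⟩ := isOpen_pi_iff.1 hO z₀ (by
    show f z₀ < 1 / 2
    rw [hfz₀]
    norm_num)
  obtain ⟨N, hN⟩ : ∃ N, ∀ i ∈ I, i < N := by
    obtain ⟨N, hN⟩ := I.bddAbove
    exact ⟨N + 1, fun i hi => Nat.lt_succ_of_le (hN hi)⟩
  obtain ⟨n, k, hn, hk⟩ : ∃ n k, N ≤ n ∧ (0 ∈ I → b n k ∈ u 0) := by
    by_cases h0 : 0 ∈ I
    · obtain ⟨n₀, hn₀⟩ := hnb (u 0) (hu 0 h0).1 (by simpa [hz₀] using (hu 0 h0).2)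
      obtain ⟨k, hk⟩ := hn₀ (max n₀ N) (le_max_left _ _)
      exact ⟨max n₀ N, k, le_max_right _ _, fun _ => hk⟩
    · exact ⟨N, 0, le_rfl, fun h => absurd h h0⟩
  set z : ℕ → S := fun i => if i = 0 then b n k else if i = n + 1 then b k 0 else b 0 0 with hz
  have hzO : z ∈ {z | f z < 1 / 2} := by
    apply huO
    intro i hi
    by_cases hi0 : i = 0
    · subst hi0
      simpa [hz] using hk hi
    · have h1 : i ≠ n + 1 := by
        have := hN i hi
        omega
      have h2 : z i = z₀ i := by simp [hz, hz₀, hi0, h1]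
      rw [h2]
      exact (hu i hi).2
  have hfz : f z = 1 := by
    have hzQ : z ∈ Q b n k := by
      refine ⟨?_, ?_, ?_⟩
      · simp [hz]
      · intro i hi
        have h1 : ¬ (i = n) := by
          have : i < n := hi
          omega
        simp [hz, h1]
      · simp [hz]
    rw [hf]
    exact if_pos (mem_iUnion.2 ⟨(n, k), hzQ⟩)
  have : f z < 1 / 2 := hzO
  rw [hfz] at this
  norm_num at this

end general

lemma fan_pt_inj {n k n' k' : ℕ} (h : Fan.pt n k = Fan.pt n' k') : n = n' ∧ k = k' := by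
  have h1 : (n, k) = (n', k') := Option.some_injective _ h
  exact ⟨congrArg Prod.fst h1, congrArg Prod.snd h1⟩

lemma fan_pt_ne {n k : ℕ} : Fan.pt n k ≠ Fan.inf := fun h => Option.some_ne_none _ h

lemma arens_pt_inj {n k n' k' : ℕ} (h : Arens.pt n k = Arens.pt n' k') : n = n' ∧ k = k' := by
  have h1 : (n, k) = (n', k') := Sum.inr_injective (Option.some_injective _ h)
  exact ⟨congrArg Prod.fst h1, congrArg Prod.snd h1⟩

lemma arens_pt_ne {n k : ℕ} : Arens.pt n k ≠ Arens.inf := fun h => Option.some_ne_none _ h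

lemma arens_pt_ne_a {n k m : ℕ} : Arens.pt n k ≠ Arens.a m := fun h => by
  have h1 : (Sum.inr (n, k) : ℕ ⊕ ℕ × ℕ) = Sum.inl m := Option.some_injective _ h
  exact absurd h1 (by simp)

lemma arens_a_ne {n : ℕ} : Arens.a n ≠ Arens.inf := fun h => Option.some_ne_none _ h

/-- **The countable powers of the Arens space `S₂` and of the sequential fan `S_ω` are not
`k_ℝ`-spaces**: they carry discontinuous real functions that are continuous on all compact
subsets. -/
theorem result : ¬ KR (ℕ → Arens) ∧ ¬ KR (ℕ → Fan) := by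
  constructor
  · refine not_KR Arens.inf Arens.pt ?_ (fun n k n' k' h => arens_pt_inj h) (fun n k => arens_pt_ne)
      ?_ ?_
    · intro n k
      refine ⟨fun m hm => absurd (mem_singleton_iff.1 hm).symm arens_pt_ne_a,
        fun h => absurd (mem_singleton_iff.1 h).symm arens_pt_ne⟩
    · intro I g
      rw [← isOpen_compl_iff]
      have key : ∀ n, Arens.nb n (g n + 1) ⊆ {x | ∃ n ∈ I, x = Arens.pt n (g n)}ᶜ := by
        rintro n x (rfl | ⟨m, hm, rfl⟩) ⟨n', _, hx⟩
        · exact arens_pt_ne_a hx.symm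
        · obtain ⟨rfl, h2⟩ := arens_pt_inj hx
          have hm' : g n + 1 ≤ m := hm
          omega
      exact ⟨fun n _ => ⟨g n + 1, key n⟩, fun _ => ⟨0, fun n => g n + 1, fun n _ => key n⟩⟩
    · intro U hU h
      obtain ⟨k, g, hk⟩ := hU.2 h
      exact ⟨k, fun n hn => ⟨g n, hk n hn (Or.inr ⟨g n, le_rfl, rfl⟩)⟩⟩
  · refine not_KR Fan.inf Fan.pt ?_ (fun n k n' k' h => fan_pt_inj h) (fun n k => fan_pt_ne) ?_ ?_
    · intro n k h
      exact absurd (mem_singleton_iff.1 h).symm fan_pt_ne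
    · intro I g
      rw [← isOpen_compl_iff]
      intro _
      refine ⟨fun n => g n + 1, ?_⟩
      rintro x (rfl | ⟨n, m, hm, rfl⟩) ⟨n', _, hx⟩
      · exact fan_pt_ne hx.symm
      · obtain ⟨rfl, h2⟩ := fan_pt_inj hx
        have hm' : g n + 1 ≤ m := hm
        omega
    · intro U hU h
      obtain ⟨g, hg⟩ := hU h
      exact ⟨0, fun n _ => ⟨g n, hg (Or.inr ⟨n, g n, le_rfl, rfl⟩)⟩⟩

end Pool.Agent.Results.MP_d55beb_gt.PowersNotKR
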